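import Pool.Agent.W5h98.Cy.Fin
import Pool.Agent.TH996.Urn.Kn

/-!
# No coexistence on cycles in the multi-type urn process

We prove the conjecture stated in the problem file: for all `k ≥ 3` and every number `s` of colours
the cycle `C_k` lies in the class `𝒢_s`.

Idea of the proof. Give a colour also to the empty urns such that the number `m` of colour changes
around the cycle is as small as possible; `m` never increases. As long as `m` stays the same, the
numbers of balls, with signs which alternate at the colour changes, perform the linear two-colour
dynamics of the cycle if `m` is even, and of the cycle with one edge of negative sign if `m` is odd.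
Let `y` be the vector of the signed numbers, `N` their total number, `q = ‖y‖²` and `p` the squared
norm of the leading Fourier coefficient (of the constant function if `m` is even, of the wave
`exp (i π j / k)` if `m` is odd). A vector with `m ≥ 2` (`m ≥ 3` if `m` is odd) sign changes stays
away from the leading eigenspace, and
`log q - log (p + K N) + B K N / (p + K N)` has drift at most `- c / N`, for suitable constants.
-/

set_option autoImplicit false

namespace Pool.Agent.Results.MP_747d65_pr.Cycles

open Pool.Agent.TH996.Urn

/-- **Theorem.** For every `k ≥ 3` and every number `s` of colours the cycle with `k` vertices lies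
in the class `𝒢_s`: for every finite initial configuration the `s`-type urn process on the cycle
almost surely has exactly one surviving colour. -/
theorem result (k s : ℕ) (hk : 3 ≤ k) : InClass (SimpleGraph.cycleGraph k) s := by
  obtain ⟨n, rfl⟩ : ∃ n, k = n + 3 := ⟨k - 3, by omega⟩
  rcases Nat.eq_zero_or_pos n with h0 | h0
  · subst h0
    show InClass (SimpleGraph.cycleGraph 3) s
    rw [SimpleGraph.cycleGraph_three_eq_top]
    obtain ⟨f, hf, c, hc, N₀, hd⟩ := complete_drift 3 s (by norm_num)
    exact criterion _ SimpleGraph.connected_top f hf c hc N₀ hd
  · refine Pool.Agent.W5h98.Cy.main (n := n + 2) _ SimpleGraph.cycleGraph_connected ?_ (by omega)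
    intro a b
    rw [Pool.Agent.W5h98.Cy.nxt_apply, Pool.Agent.W5h98.Cy.nxt_apply]
    show (SimpleGraph.cycleGraph (n + 1 + 2)).Adj a b ↔ _
    rw [SimpleGraph.cycleGraph_adj, sub_eq_iff_eq_add', sub_eq_iff_eq_add']
    constructor
    · rintro (h | h)
      · exact Or.inr h
      · exact Or.inl h
    · rintro (h | h)
      · exact Or.inr h
      · exact Or.inl h

end Pool.Agent.Results.MP_747d65_pr.Cycles
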